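import Pool.Agent.Helper50.BL.Stmts
import Pool.Agent.Helper50.BL.Base

/-! # MP_e8ee11_co: rounding and corrections in the class step (RC) -/

namespace Pool.Agent.Helper50.BL

open Finset
open scoped Classical

/-- double counting -/
theorem rc_dc {V J : Type} [Fintype V] [DecidableEq V] [Fintype J] [DecidableEq J]
    {S : J → Finset V} {t : ℕ} (hD : Deg S t) (W : Finset J) (X : Finset V) :
    ∑ i ∈ W, (#(S i ∩ X) : ℝ) ≤ t * (#X : ℝ) := by
  have h1 : ∑ i ∈ W, #(S i ∩ X) ≤ ∑ _x ∈ X, t := by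
    have h2 : ∀ i ∈ W, #(S i ∩ X) = ∑ x ∈ X, if x ∈ S i then 1 else 0 := by
      intro i _
      rw [← Finset.card_filter, Finset.filter_mem_eq_inter, Finset.inter_comm]
    rw [Finset.sum_congr rfl h2, Finset.sum_comm]
    refine Finset.sum_le_sum fun x _ => ?_
    rw [← Finset.card_filter]
    exact (Finset.card_le_card (Finset.filter_subset_filter _ (Finset.subset_univ _))).trans (hD x)
  rw [Finset.sum_const, smul_eq_mul] at h1
  have h3 : ((∑ i ∈ W, #(S i ∩ X) : ℕ) : ℝ) ≤ ((#X * t : ℕ) : ℝ) := by exact_mod_cast h1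
  push_cast at h3
  linarith

theorem rc_log {x : ℝ} (hx : 0 ≤ x) : Real.log (1 + x) ≤ Real.sqrt x := by
  set s := Real.sqrt x with hs
  have hs0 : 0 ≤ s := Real.sqrt_nonneg x
  have hxs : x = s ^ 2 := (Real.sq_sqrt hx).symm
  rw [hxs]
  have h1 : 1 + s / 2 + (s / 2) ^ 2 / 2 ≤ Real.exp (s / 2) :=
    Real.quadratic_le_exp_of_nonneg (by positivity)
  have h2 : Real.exp s = Real.exp (s / 2) ^ 2 := by
    rw [← Real.exp_nat_mul]
    congr 1
    push_cast
    ring
  have h3 : 1 + s ^ 2 ≤ Real.exp s := by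
    rw [h2]
    have h4 : (1 + s / 2 + (s / 2) ^ 2 / 2) ^ 2 ≤ Real.exp (s / 2) ^ 2 :=
      pow_le_pow_left₀ (by positivity) h1 2
    have h5 : 0 ≤ s * ((s / 2 - 1) ^ 2 + 0) := by positivity
    have h6 : 0 ≤ s * ((s - 2) ^ 2 / 8) := by positivity
    have h7 : 0 ≤ s ^ 4 := by positivity
    nlinarith [h4, h5, h6, h7, hs0]
  rw [Real.log_le_iff_le_exp (by positivity)]
  exact h3

theorem rc_cst {κ : ℝ} (hκ : 0 ≤ κ) {n : ℤ} (hn : n ≠ 0) {z : ℝ} (hz : |(n : ℝ)| ≤ z) :
    cst κ n ≤ (κ + 2) * Real.sqrt z := by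
  unfold cst
  rw [if_neg hn]
  have h1 : (1 : ℝ) ≤ |(n : ℝ)| := by
    have : (1 : ℤ) ≤ |n| := Int.one_le_abs hn
    exact_mod_cast this
  have h2 : Real.log (1 + |(n : ℝ)|) ≤ Real.sqrt |(n : ℝ)| := rc_log (abs_nonneg _)
  have h3 : Real.sqrt |(n : ℝ)| ≤ Real.sqrt z := Real.sqrt_le_sqrt hz
  have h4 : 1 ≤ Real.sqrt z := by
    rw [Real.one_le_sqrt]
    exact h1.trans hz
  nlinarith

/-- the sum over the points of a set -/
theorem rc_swap {V J : Type} [DecidableEq V] [DecidableEq J] (S : J → Finset V) (W : Finset J)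
    (X : Finset V) (y : J → ℝ) :
    ∑ x ∈ X, ∑ i ∈ W.filter (fun i => x ∈ S i), y i = ∑ i ∈ W, (#(S i ∩ X) : ℝ) * y i := by
  simp only [Finset.sum_filter]
  rw [Finset.sum_comm]
  refine Finset.sum_congr rfl fun i _ => ?_
  rw [← Finset.sum_filter, Finset.sum_const, nsmul_eq_mul, Finset.filter_mem_eq_inter,
    Finset.inter_comm]

/-- cost of a correction -/
theorem rc_cost {κ g Lam t a b m : ℝ} (hκ : 0 ≤ κ) (hg : 0 < g) (ht : 0 ≤ t) (hL : 0 ≤ Lam)
    (hb : |b| ≤ m) (ha : |a| ≤ t * (g * Lam)) :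
    cst κ (round ((a + b) / g)) ≤ (if g ≤ 4 * m then (κ + 2) * Real.sqrt (4 * m / g) else 0)
      + (if g / 8 + g / 64 < |a| then (κ + 2) * Real.sqrt (4 * t * Lam) else 0) := by
  have hE : 0 ≤ (if g ≤ 4 * m then (κ + 2) * Real.sqrt (4 * m / g) else 0) := by
    split_ifs
    · have := Real.sqrt_nonneg (4 * m / g)
      positivity
    · exact le_rfl
  have hP : 0 ≤ (if g / 8 + g / 64 < |a| then (κ + 2) * Real.sqrt (4 * t * Lam) else 0) := by
    split_ifs
    · have := Real.sqrt_nonneg (4 * t * Lam)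
      positivity
    · exact le_rfl
  by_cases hn : round ((a + b) / g) = 0
  · rw [hn]
    unfold cst
    rw [if_pos rfl]
    exact add_nonneg hE hP
  · have h1 : (1 : ℝ) ≤ |((round ((a + b) / g) : ℤ) : ℝ)| := by
      have : (1 : ℤ) ≤ |round ((a + b) / g)| := Int.one_le_abs hn
      exact_mod_cast this
    have h2 : |(a + b) / g - ((round ((a + b) / g) : ℤ) : ℝ)| ≤ 1 / 2 := abs_sub_round _
    have h3 : |((round ((a + b) / g) : ℤ) : ℝ)| ≤ |(a + b) / g| + 1 / 2 := by
      have := abs_sub_abs_le_abs_sub ((round ((a + b) / g) : ℤ) : ℝ) ((a + b) / g)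
      rw [abs_sub_comm] at this
      linarith
    have h4 : |(a + b) / g| = |a + b| / g := by
      rw [abs_div, abs_of_pos hg]
    rw [h4] at h3
    have h5 : 1 / 2 ≤ |a + b| / g := by linarith
    have h6 : g / 2 ≤ |a + b| := by
      rw [le_div_iff₀ hg] at h5
      linarith
    have h7 : |((round ((a + b) / g) : ℤ) : ℝ)| ≤ 2 * |a + b| / g := by
      have : 2 * |a + b| / g = |a + b| / g + |a + b| / g := by ring
      rw [this]
      linarith
    have h8 := abs_add_le a b
    rcases le_or_gt |a| |b| with hab | hab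
    · have h9 : g ≤ 4 * m := by linarith
      rw [if_pos h9]
      have h10 : cst κ (round ((a + b) / g)) ≤ (κ + 2) * Real.sqrt (4 * m / g) := by
        refine rc_cst hκ hn (h7.trans ?_)
        rw [div_le_div_iff_of_pos_right hg]
        linarith
      linarith
    · have h9 : g / 8 + g / 64 < |a| := by linarith
      rw [if_pos h9]
      have h10 : cst κ (round ((a + b) / g)) ≤ (κ + 2) * Real.sqrt (4 * t * Lam) := by
        refine rc_cst hκ hn (h7.trans ?_)
        rw [div_le_iff₀ hg]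
        nlinarith
      linarith

theorem st_RC (hR : ST_RND) : ST_RC := by
  intro V J _ _ _ _ S I B lam f t D T Lam κ h hBI ht hDeg hcard hne hL hT hh hκ hov
  have ht' : (1 : ℝ) ≤ t := by exact_mod_cast ht
  have ht0 : (0 : ℝ) < t := by linarith
  have hL0 : (0 : ℝ) < Lam := by linarith
  have hκ0 : (0 : ℝ) ≤ κ := by linarith
  set g : ℝ := 8 * h / T with hg
  have hg0 : 0 < g := by positivity
  set Q : ℝ := 8 * Lam * h / T with hQ
  have hQg : Q = g * Lam := by rw [hQ, hg]; ring
  have hQ0 : 0 < Q := by positivity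
  set thr : ℝ := h / (8 * t * T) with hthr
  have hthr0 : 0 < thr := by positivity
  have hthrg : t * thr = g / 64 := by
    rw [hthr, hg]
    field_simp
    ring
  have hthrQ : thr ≤ Q := by
    rw [hQg]
    have h1 : thr ≤ t * thr := by nlinarith
    rw [hthrg] at h1
    nlinarith
  set cc : J → J → ℝ := fun k i => if k ∈ B ∧ i ≠ k then (#(S i ∩ S k) : ℝ) / #(S k) else 0
    with hcc
  set P : ℝ := (κ + 2) * Real.sqrt (4 * t * Lam) with hPd
  have hP0 : 0 ≤ P := by
    have := Real.sqrt_nonneg (4 * t * Lam)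
    positivity
  have hSpos : ∀ j ∈ B, (0 : ℝ) < #(S j) := fun j hj => by
    exact_mod_cast (hne j hj).card_pos
  have hcc0 : ∀ k i, 0 ≤ cc k i := by
    intro k i
    simp only [hcc]
    split_ifs <;> positivity
  have hccm : ∀ k, ∀ i ∈ I, cc k i ≤ 1 / (32 * t * Lam ^ 3) := by
    intro k i hi
    simp only [hcc]
    split_ifs with hk
    · have h1 := hov k hk.1 i hi hk.2
      rw [div_le_div_iff₀ (hSpos k hk.1) (by positivity)]
      linarith
    · positivity
  have hccs : ∀ k, ∀ W : Finset J, ∑ i ∈ W, cc k i ≤ t := by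
    intro k W
    by_cases hk : k ∈ B
    · have h1 : ∀ i ∈ W, cc k i ≤ (#(S i ∩ S k) : ℝ) / #(S k) := by
        intro i _
        simp only [hcc]
        split_ifs
        · exact le_rfl
        · positivity
      refine (Finset.sum_le_sum h1).trans ?_
      rw [← Finset.sum_div, div_le_iff₀ (hSpos k hk)]
      exact rc_dc hDeg W (S k)
    · have h1 : ∀ i ∈ W, cc k i = 0 := by
        intro i _
        simp only [hcc]
        rw [if_neg]
        exact fun h => hk h.1
      rw [Finset.sum_eq_zero h1]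
      exact ht0.le
  have hccq : ∀ k, ∑ i ∈ I, cc k i ^ 2 ≤ 1 / (32 * Lam ^ 3) := by
    intro k
    have h1 : ∀ i ∈ I, cc k i ^ 2 ≤ 1 / (32 * t * Lam ^ 3) * cc k i := by
      intro i hi
      rw [sq]
      exact mul_le_mul_of_nonneg_right (hccm k i hi) (hcc0 k i)
    refine (Finset.sum_le_sum h1).trans ?_
    rw [← Finset.mul_sum]
    have h2 : 1 / (32 * (t : ℝ) * Lam ^ 3) * ∑ i ∈ I, cc k i ≤ 1 / (32 * t * Lam ^ 3) * t :=
      mul_le_mul_of_nonneg_left (hccs k I) (by positivity)
    refine h2.trans (le_of_eq ?_)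
    field_simp
  obtain ⟨r, hr0, hrQ, hrc⟩ := hR J J I lam Q thr κ t (g / 8) cc (fun _ => 1 / (32 * Lam ^ 3))
    (fun k => if k ∈ B then P else 0) hthr0 hthrQ hκ0 ht0.le (by positivity)
    (fun _ => by positivity) hcc0 hccq (fun k => hccs k I)
    (fun k => by
      show 0 ≤ (if k ∈ B then P else 0)
      split_ifs
      · exact hP0
      · exact le_rfl)
  set ua : J → ℝ := fun j => ∑ i ∈ I, cc j i * (Q * (r i : ℝ) - lam i) with hua
  set ub : J → ℝ := fun j => (1 / (#(S j) : ℝ)) * ∑ x ∈ S j, f x with hub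
  have hu : ∀ j ∈ B, (1 / (#(S j) : ℝ)) * ∑ x ∈ S j, (f x
      + ∑ i ∈ (I.erase j).filter (fun i => x ∈ S i), (Q * (r i : ℝ) - lam i))
      = ua j + ub j := by
    intro j hj
    rw [Finset.sum_add_distrib, rc_swap, mul_add, add_comm]
    congr 1
    simp only [hua]
    rw [Finset.mul_sum, ← Finset.sum_erase I (a := j)]
    · refine Finset.sum_congr rfl fun i hi => ?_
      have hij := Finset.ne_of_mem_erase hi
      simp only [hcc]
      rw [if_pos ⟨hj, hij⟩]
      ring
    · simp only [hcc]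
      rw [if_neg (fun h => h.2 rfl), zero_mul]
  refine ⟨r, fun j => if j ∈ B then round ((ua j + ub j) / g) else 0, hr0, ?_, ?_, ?_⟩
  · intro j hj
    show (if j ∈ B then round ((ua j + ub j) / g) else 0) = 0
    rw [if_neg hj]
  · intro j hj
    rw [hu j hj]
    show |ua j + ub j - g * (((if j ∈ B then round ((ua j + ub j) / g) else 0) : ℤ) : ℝ)| ≤ _
    rw [if_pos hj]
    have h1 : |(ua j + ub j) / g - ((round ((ua j + ub j) / g) : ℤ) : ℝ)| ≤ 1 / 2 :=
      abs_sub_round _
    have h2 : ua j + ub j - g * ((round ((ua j + ub j) / g) : ℤ) : ℝ)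
        = g * ((ua j + ub j) / g - ((round ((ua j + ub j) / g) : ℤ) : ℝ)) := by
      field_simp
    rw [h2, abs_mul, abs_of_pos hg0]
    have h3 : 4 * h / T = g * (1 / 2) := by
      rw [hg]
      ring
    rw [h3]
    exact mul_le_mul_of_nonneg_left h1 hg0.le
  · -- the costs
    have hfail : g / 8 + t * thr = g / 8 + g / 64 := by rw [hthrg]
    have hcj : ∀ j ∈ B, cst κ ((fun j => if j ∈ B then round ((ua j + ub j) / g) else 0) j)
        ≤ E2c κ T h ((1 / (#(S j) : ℝ)) * ∑ x ∈ S j, |f x|)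
          + (if g / 8 + t * thr < |ua j| then (if j ∈ B then P else 0) else 0) := by
      intro j hj
      show cst κ (if j ∈ B then round ((ua j + ub j) / g) else 0) ≤ _
      rw [if_pos hj, if_pos hj, hfail]
      unfold E2c
      refine rc_cost hκ0 hg0 ht0.le hL0.le ?_ ?_
      · simp only [hub]
        rw [abs_mul, abs_of_nonneg (by positivity : (0 : ℝ) ≤ 1 / (#(S j) : ℝ))]
        exact mul_le_mul_of_nonneg_left (Finset.abs_sum_le_sum_abs _ _) (by positivity)
      · simp only [hua]
        refine (Finset.abs_sum_le_sum_abs _ _).trans ?_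
        have h1 : ∀ i ∈ I, |cc j i * (Q * (r i : ℝ) - lam i)| ≤ cc j i * (g * Lam) := by
          intro i hi
          rw [abs_mul, abs_of_nonneg (hcc0 j i), ← hQg]
          exact mul_le_mul_of_nonneg_left (hrQ i hi) (hcc0 j i)
        refine (Finset.sum_le_sum h1).trans ?_
        rw [← Finset.sum_mul]
        exact mul_le_mul_of_nonneg_right (hccs j I) (by positivity)
    have hsum1 : ∑ j ∈ B, (if g / 8 + t * thr < |ua j| then (if j ∈ B then P else 0) else 0)
        ≤ ∑ k ∈ univ.filter (fun k => g / 8 + t * thr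
            < |∑ i ∈ I, cc k i * (Q * (r i : ℝ) - lam i)|), (if k ∈ B then P else 0) := by
      rw [Finset.sum_filter]
      refine Finset.sum_le_sum_of_subset_of_nonneg (Finset.subset_univ _) fun j _ _ => ?_
      split_ifs <;> first | exact hP0 | exact le_rfl
    have hexp : ∀ k : J, (if k ∈ B then P else 0)
        * (2 * Real.exp (-(2 * (g / 8) ^ 2 / (Q ^ 2 * (1 / (32 * Lam ^ 3))))))
        = (if k ∈ B then P else 0) * (2 * Real.exp (-Lam)) := by
      intro k
      have : 2 * (g / 8) ^ 2 / (Q ^ 2 * (1 / (32 * Lam ^ 3))) = Lam := by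
        rw [hQg]
        field_simp
        ring
      rw [this]
    have hpen : ∑ k ∈ univ.filter (fun k => ∃ i ∈ I, cc k i ≠ 0 ∧ thr ≤ |lam i|),
        (if k ∈ B then P else 0)
          * (2 * Real.exp (-(2 * (g / 8) ^ 2 / (Q ^ 2 * (1 / (32 * Lam ^ 3))))))
        ≤ ∑ i ∈ I, (if |lam i| < thr then 0 else epsC κ t Lam D) := by
      simp only [hexp]
      set P2 : ℝ := P * (2 * Real.exp (-Lam)) with hP2
      have hP20 : 0 ≤ P2 := by positivity
      have k1 : ∀ k ∈ univ.filter (fun k => ∃ i ∈ I, cc k i ≠ 0 ∧ thr ≤ |lam i|),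
          (if k ∈ B then P else 0) * (2 * Real.exp (-Lam))
          ≤ ∑ i ∈ I, (if |lam i| < thr then 0 else (#(S k ∩ S i) : ℝ) * P2) := by
        intro k hk
        rw [Finset.mem_filter] at hk
        obtain ⟨_, i, hi, hci, hli⟩ := hk
        have hnn : ∀ i ∈ I, 0 ≤ (if |lam i| < thr then 0 else (#(S k ∩ S i) : ℝ) * P2) := by
          intro i _
          split_ifs
          · exact le_rfl
          · positivity
        refine le_trans ?_ (Finset.single_le_sum hnn hi)
        rw [if_neg (not_lt.2 hli)]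
        have hkB : k ∈ B ∧ i ≠ k := by
          by_contra hc
          apply hci
          simp only [hcc]
          rw [if_neg hc]
        rw [if_pos hkB.1]
        have h1 : (1 : ℝ) ≤ #(S k ∩ S i) := by
          have h2 : #(S i ∩ S k) ≠ 0 := by
            intro h0
            apply hci
            simp only [hcc]
            rw [if_pos hkB, h0]
            simp
          have h3 : 1 ≤ #(S k ∩ S i) := by
            rw [Finset.inter_comm]
            exact Nat.one_le_iff_ne_zero.2 h2
          exact_mod_cast h3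
        nlinarith
      refine (Finset.sum_le_sum k1).trans ?_
      have k2 : ∑ k ∈ univ.filter (fun k => ∃ i ∈ I, cc k i ≠ 0 ∧ thr ≤ |lam i|),
          ∑ i ∈ I, (if |lam i| < thr then 0 else (#(S k ∩ S i) : ℝ) * P2)
          ≤ ∑ k : J, ∑ i ∈ I, (if |lam i| < thr then 0 else (#(S k ∩ S i) : ℝ) * P2) := by
        refine Finset.sum_le_sum_of_subset_of_nonneg (Finset.subset_univ _) fun k _ _ => ?_
        refine Finset.sum_nonneg fun i _ => ?_
        split_ifs
        · exact le_rfl
        · positivity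
      refine k2.trans ?_
      rw [Finset.sum_comm]
      refine Finset.sum_le_sum fun i hi => ?_
      split_ifs with hlt
      · simp
      · rw [← Finset.sum_mul]
        have h1 : ∑ k : J, (#(S k ∩ S i) : ℝ) ≤ t * #(S i) := rc_dc hDeg univ (S i)
        have h2 : (t : ℝ) * #(S i) ≤ t * D := mul_le_mul_of_nonneg_left (hcard i hi) ht0.le
        have h3 : (∑ k : J, (#(S k ∩ S i) : ℝ)) * P2 ≤ t * D * P2 :=
          mul_le_mul_of_nonneg_right (h1.trans h2) hP20
        refine h3.trans (le_of_eq ?_)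
        unfold epsC
        rw [hP2, hPd]
        ring
    have hE1 : ∀ i ∈ I, e1 κ Q thr |lam i| + (if |lam i| < thr then 0 else epsC κ t Lam D)
        = E1c κ t T Lam D h |lam i| := by
      intro i _
      unfold E1c
      split_ifs with hlt
      · unfold e1
        rw [if_pos hlt, add_zero]
      · rfl
    have hB : ∑ j ∈ B, cst κ ((fun j => if j ∈ B then round ((ua j + ub j) / g) else 0) j)
        ≤ ∑ j ∈ B, E2c κ T h ((1 / (#(S j) : ℝ)) * ∑ x ∈ S j, |f x|)
          + ∑ k ∈ univ.filter (fun k => g / 8 + t * thr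
            < |∑ i ∈ I, cc k i * (Q * (r i : ℝ) - lam i)|), (if k ∈ B then P else 0) := by
      refine (Finset.sum_le_sum hcj).trans ?_
      rw [Finset.sum_add_distrib]
      linarith
    rw [← Finset.sum_congr rfl hE1, Finset.sum_add_distrib]
    linarith

end Pool.Agent.Helper50.BL
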